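import Pool.Agent.Q286.GB.Del3

/-!
# Ramanujan's question as the vanishing of an elementary distance in terms of `τ(n)`: exact asymptotics

Let `τ(n)` be Ramanujan's function, `L(s) = ∑ τ(n) n^(-s)` and `Ξ_Δ(z) = (2π)^(-6-iz) Γ(6+iz) L(6+iz)`.  For `N ≥ 1` let

  `e_N² = inf_a ∫_1^∞ |1 - ∑_{k ≤ y} ∑_{n j = k, n ≤ N} a_n τ(j) j^(-11/2)|² dy/y²`

(the infimum over all complex numbers `a_1, …, a_N`; only the numbers `τ(j)` occur), and let `d_N²` be the squared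
distance, in `L²` of the critical line `Re s = 6` with the measure `dt/(2π(1/4 + t²))`, of the constant `1` to the products
`L(s) A(s)` with Dirichlet polynomials `A(s) = ∑_{n ≤ N} a_n n^(-s)`.  Let

  `B = ∑_{g real, Ξ_Δ(g) = 0} m(g)² / (1/4 + g²)`, `m(g)` = the multiplicity of the zero `g`.

We prove, with no hypothesis,

* `e_N² ≤ d_N²` and `B ≤ liminf e_N² log N`;
* if all zeros of `Ξ_Δ` are real: `B < ∞` and `d_N² log N → B`, `e_N² log N → B`;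
* if not: `e_N² ≥ c > 0` for all `N`.

So all zeros of `Ξ_Δ` are real if and only if `e_N → 0`, if and only if `d_N → 0`, and then `e_N² log N` converges to `B`.
-/

set_option autoImplicit false

open Complex MeasureTheory Filter Topology
open scoped ENNReal

namespace Pool.Agent.Results.MP_cd509c_nt.DistanceFormula

/-- `Δ(i y) = e^(-2πy) ∏_{n ≥ 1} (1 - e^(-2πny))^24`, the modular discriminant on the imaginary axis
(the function of the frozen statement S18517). -/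
noncomputable def delta (y : ℝ) : ℝ :=
  Real.exp (-2 * Real.pi * y) * ∏' n : ℕ, (1 - Real.exp (-2 * Real.pi * ((n : ℝ) + 1) * y)) ^ 24

/-- The completed L-function `Λ(s) = ∫_0^∞ Δ(i y) y^(s-1) dy = (2π)^(-s) Γ(s) L(s, Δ)`, an entire
function with `Λ(12 - s) = Λ(s)`. -/
noncomputable def Lam (s : ℂ) : ℂ := mellin (fun y : ℝ => ((delta y : ℝ) : ℂ)) s

/-- The Ramanujan L-function `L(s, Δ) = (2π)^s Λ(s) / Γ(s)`. -/
noncomputable def LDelta (s : ℂ) : ℂ := ((2 * Real.pi : ℝ) : ℂ) ^ s * Lam s / Complex.Gamma s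

/-- The Ramanujan Xi function `Ξ_Δ(z) = Λ(6 + i z)`. -/
noncomputable def Xi (z : ℂ) : ℂ := Lam (6 + Complex.I * z)

/-- All zeros of `Ξ_Δ` are real. -/
def AllZerosReal : Prop := ∀ z : ℂ, Xi z = 0 → z.im = 0

/-- `τ` is Ramanujan's function: `∑ τ(n) x^n = x ∏_{m ≥ 1} (1 - x^m)^24` for `0 < x < 1`. -/
def IsTau (τ : ℕ → ℝ) : Prop :=
  ∀ x : ℝ, 0 < x → x < 1 → HasSum (fun n : ℕ => τ n * x ^ n) (x * ∏' m : ℕ, (1 - x ^ (m + 1)) ^ 24)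

/-- `d_N² = inf_a (1/2π) ∫ |1 - L(6 + it, Δ) ∑_{n ≤ N} a_n n^(-6 - it)|² dt / (1/4 + t²)`. -/
noncomputable def d2 (N : ℕ) : ℝ≥0∞ :=
  ⨅ a : ℕ → ℂ, ENNReal.ofReal (1 / (2 * Real.pi)) * ∫⁻ t : ℝ, ENNReal.ofReal
    (‖1 - LDelta (6 + t * I) * ∑ n ∈ Finset.Icc 1 N, a n * (n : ℂ) ^ (-(6 + t * I : ℂ))‖ ^ 2 / (1 / 4 + t ^ 2))

/-- `e_N² = inf_a ∫_1^∞ |1 - ∑_{k ≤ y} ∑_{n j = k, n ≤ N} a_n τ(j) / j^(11/2)|² dy / y²`. -/
noncomputable def e2 (τ : ℕ → ℝ) (N : ℕ) : ℝ≥0∞ :=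
  ⨅ a : ℕ → ℂ, ∫⁻ y in Set.Ioi (1 : ℝ), ENNReal.ofReal
    (‖1 - ∑ k ∈ Finset.Icc 1 ⌊y⌋₊, ∑ p ∈ k.divisorsAntidiagonal,
      (if p.1 ≤ N then a p.1 else 0) * ((τ p.2 / (p.2 : ℝ) ^ ((11 : ℝ) / 2) : ℝ) : ℂ)‖ ^ 2 / y ^ 2)

/-- `B = ∑ m(g)² / (1/4 + g²)` over the real zeros `g` of `Ξ_Δ`, `m(g)` the multiplicity. -/
noncomputable def B : ℝ≥0∞ :=
  ∑' g : {g : ℝ // Xi g = 0}, ENNReal.ofReal ((analyticOrderNatAt Xi (g : ℝ) : ℝ) ^ 2 / (1 / 4 + (g : ℝ) ^ 2))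

open Pool.Agent.Q286.GB

lemma line (g : ℝ) : (((6 : ℝ)) : ℂ) + g * I = 6 + I * (g : ℂ) := by
  push_cast
  ring

lemma real_iff : AllZerosReal ↔ ∀ s : ℂ, Lam s = 0 → s.re = 6 := by
  constructor
  · intro h s hs
    have h1 := h (-I * (s - 6)) (by
      show Lam (6 + I * (-I * (s - 6))) = 0
      have e : 6 + I * (-I * (s - 6)) = s := by linear_combination (-(s - 6)) * I_mul_I
      rw [e]
      exact hs)
    have h2 : (-I * (s - 6)).im = -(s.re - 6) := by simp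
    rw [h2] at h1
    linarith
  · intro h z hz
    have h1 := h (6 + I * z) hz
    have h2 : (6 + I * z).re = 6 - z.im := by
      rw [add_re, I_mul_re, sub_eq_add_neg]
      norm_num
    rw [h2] at h1
    linarith

lemma B_eq : BB Lam 6 = B := by
  rw [BB_pt (f := fun g : ℝ => 6 + I * (g : ℂ)) fun g => (line g).symm]
  unfold B
  refine tsum_congr fun g => ?_
  have h := Pool.Agent.Q286.Dl.order_Xi ((g : ℝ) : ℂ)
  show ENNReal.ofReal ((analyticOrderNatAt Lam (6 + I * ((g : ℝ) : ℂ)) : ℝ) ^ 2 / (1 / 4 + (g : ℝ) ^ 2)) =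
    ENNReal.ofReal ((analyticOrderNatAt (fun z => Pool.Agent.Q286.Dl.Lam (6 + I * z)) ((g : ℝ) : ℂ) : ℝ) ^ 2 /
      (1 / 4 + (g : ℝ) ^ 2))
  rw [h]
  rfl

/-- **The distance formula for Ramanujan's L-function.** -/
theorem result :
    (∃! τ : ℕ → ℝ, IsTau τ) ∧ ∀ τ : ℕ → ℝ, IsTau τ →
      (∀ s : ℂ, 13 / 2 < s.re → HasSum (fun n : ℕ => (τ n : ℂ) * (n : ℂ) ^ (-s)) (LDelta s)) ∧
      (∀ N, e2 τ N ≤ d2 N) ∧
      B ≤ liminf (fun N : ℕ => e2 τ N * ENNReal.ofReal (Real.log N)) atTop ∧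
      (AllZerosReal → B ≠ ⊤ ∧
        Tendsto (fun N : ℕ => d2 N * ENNReal.ofReal (Real.log N)) atTop (𝓝 B) ∧
        Tendsto (fun N : ℕ => e2 τ N * ENNReal.ofReal (Real.log N)) atTop (𝓝 B)) ∧
      (¬ AllZerosReal → ∃ c : ℝ≥0∞, c ≠ 0 ∧ ∀ N : ℕ, c ≤ e2 τ N) ∧
      (AllZerosReal ↔ Tendsto (e2 τ) atTop (𝓝 0)) ∧
      (AllZerosReal ↔ Tendsto d2 atTop (𝓝 0)) := by
  refine ⟨Pool.Agent.Q286.Dl.existsUnique_tau, fun τ hτ => ?_⟩
  have hτ' : ∀ n : ℕ, (τ n : ℂ) = Pool.Agent.Q246.HW.a Pool.Agent.Q286.Dl.F1 n := Pool.Agent.Q286.Dl.tau_eq hτ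
  have H := Pool.Agent.Q286.Dl.conclD
  have hlam : (fun n : ℕ => Pool.Agent.Q246.HW.a Pool.Agent.Q286.Dl.F1 n / (((n : ℝ) ^ ((11 : ℝ) / 2) : ℝ) : ℂ)) =
      fun n : ℕ => ((τ n / (n : ℝ) ^ ((11 : ℝ) / 2) : ℝ) : ℂ) := by
    funext n
    rw [← hτ', Complex.ofReal_div]
  rw [hlam] at H
  have hd : dd LDelta 6 = d2 := by
    funext N
    unfold dd d2
    have e : ∀ t : ℝ, ((6 : ℝ) : ℂ) + t * I = 6 + t * I := fun t => by push_cast; ring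
    simp only [e]
  have he : ee (fun n : ℕ => ((τ n / (n : ℝ) ^ ((11 : ℝ) / 2) : ℝ) : ℂ)) = e2 τ := rfl
  have hB := B_eq
  have h1 := H.le
  have h2 := H.low
  have h3 := H.rh
  have h4 := H.nrh
  have h5 := H.zero_e
  have h6 := H.zero_d
  change ∀ N, ee _ N ≤ dd LDelta 6 N at h1
  change BB Lam 6 ≤ _ at h2
  change (∀ s : ℂ, Lam s = 0 → s.re = 6) → BB Lam 6 ≠ ⊤ ∧ Tendsto (fun N : ℕ => dd LDelta 6 N * _) atTop (𝓝 (BB Lam 6)) ∧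
    Tendsto _ atTop (𝓝 (BB Lam 6)) at h3
  change ¬ (∀ s : ℂ, Lam s = 0 → s.re = 6) → _ at h4
  change (∀ s : ℂ, Lam s = 0 → s.re = 6) ↔ _ at h5
  change (∀ s : ℂ, Lam s = 0 → s.re = 6) ↔ Tendsto (dd LDelta 6) atTop (𝓝 0) at h6
  rw [hd] at h1 h3 h6
  rw [hB] at h2 h3
  rw [he] at h1 h2 h3 h4 h5
  rw [← real_iff] at h3 h4 h5 h6
  refine ⟨fun s hs => ?_, h1, h2, h3, h4, h5, h6⟩
  simp only [hτ']
  exact Pool.Agent.Q286.Dl.LD_ser hs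

end Pool.Agent.Results.MP_cd509c_nt.DistanceFormula
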