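import Pool.Agent.Q278.ES.G

/-!
# The averages `Ξ_Δ(z + i h) + u Ξ_Δ(z - i h)`: almost all zeros are real, simple and equally spaced

The Ramanujan Xi function is `Ξ_Δ(z) = Λ(6 + i z)`, `Λ(s) = (2π)^(-s) Γ(s) L(s, Δ)`.  For `h > 0` and `|u| = 1` put

  `Ξ_(h,u)(z) = Ξ_Δ(z + i h) + u Ξ_Δ(z - i h)`,

so that `Ξ_(h,1) → 2 Ξ_Δ` for `h → 0`.  All zeros of `Ξ_Δ` are real if and only if all zeros of all the functions
`Ξ_(h,u)` are real; if they are, then for fixed `h` almost all gaps between neighbouring zeros of `Ξ_(h,u)` are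
asymptotically equal to the mean gap `π / log x` (for the Riemann zeta function: Lagarias).  For `h < 1/2` both
assertions are known only under the Riemann hypothesis for `L(s, Δ)`.

We prove, for all `h > 0` and with no hypothesis: almost all zeros of `Ξ_(h,u)` are real and simple, and the next zero
(among all zeros, real or not) follows at distance `(1 + O(η)) π / log x`.  More precisely, for every `η > 0` there are
`c, C > 0` such that this is so for all but at most the proportion `C T^(-c h)` of the zeros with real part in `(0, T]`,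
uniformly in `0 < h ≤ 1`, `|u| = 1`, `T ≥ 2`.  So for `h = K / log T` (`K` times the mean distance of the zeros, up to
a factor) the proportion of the exceptional zeros is at most `C e^(-c K)`, without loss of logarithms.

Proof (modules `Pool.Agent.Q278.ES`): by the starting project GD2 (mollified mean square of `L(s, Δ)`), for most heights
`t` the logarithmic derivative of `X(z) = Λ(6 + z)` is close to `log t` at all points at distance about `r` to the right
of `6 + i t`, at all scales `r ≥ h`.  At a height which is good at all scales `2^j h` there are no zeros of `X` which can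
disturb the reality (argument of de Bruijn), and at scale `h` the argument of `X(h + i t)` grows at the constant rate
`log t`.  At the other heights the zeros are counted by Jensen's formula at the smallest good scale.
-/

set_option autoImplicit false

namespace Pool.Agent.Results.MP_cd509c_nt.EqualSpacing

/-- `Δ(i y) = e^(-2πy) ∏_{n ≥ 1} (1 - e^(-2πny))^24`, the modular discriminant on the imaginary axis
(the function of the frozen statement S18517). -/
noncomputable def delta (y : ℝ) : ℝ :=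
  Real.exp (-2 * Real.pi * y) * ∏' n : ℕ, (1 - Real.exp (-2 * Real.pi * ((n : ℝ) + 1) * y)) ^ 24

/-- The completed L-function `Λ(s) = ∫_0^∞ Δ(i y) y^(s-1) dy = (2π)^(-s) Γ(s) L(s, Δ)`, an entire
function with `Λ(12 - s) = Λ(s)`. -/
noncomputable def Lam (s : ℂ) : ℂ := mellin (fun y : ℝ => ((delta y : ℝ) : ℂ)) s

/-- The Ramanujan Xi function `Ξ_Δ(z) = Λ(6 + i z)`. -/
noncomputable def Xi (z : ℂ) : ℂ := Lam (6 + Complex.I * z)

/-- The average `Ξ_(h,u)(z) = Ξ_Δ(z + i h) + u Ξ_Δ(z - i h)`. -/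
noncomputable def avg (h : ℝ) (u z : ℂ) : ℂ := Xi (z + h * Complex.I) + u * Xi (z - h * Complex.I)

/-- The zeros of `F` with real part in `(0, T]`. -/
def Zer (F : ℂ → ℂ) (T : ℝ) : Set ℂ := {z | F z = 0 ∧ 0 < z.re ∧ z.re ≤ T}

/-- `z` is a real simple zero of `F`, and the next zero of `F` on its right is a real number `x`, at distance
`(1 + θ) π / log z` with `|θ| ≤ η`: there is no zero `w` of `F`, real or not, with `z < Re w < x`. -/
def Regular (η : ℝ) (F : ℂ → ℂ) (z : ℂ) : Prop :=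
  z.im = 0 ∧ deriv F z ≠ 0 ∧ ∃ x : ℝ, z.re < x ∧ F x = 0 ∧
    (∀ w : ℂ, F w = 0 → z.re < w.re → x ≤ w.re) ∧
    |(x - z.re) * (Real.log z.re / Real.pi) - 1| ≤ η

/-- The exceptional zeros. -/
def Exc (η : ℝ) (F : ℂ → ℂ) (T : ℝ) : Set ℂ := {z | z ∈ Zer F T ∧ ¬ Regular η F z}

/-- The number of points of `A`, each counted with its multiplicity as a zero of `F`. -/
noncomputable def num (F : ℂ → ℂ) (A : Set ℂ) : ℕ := ∑ᶠ z ∈ A, analyticOrderNatAt F z

/-- (1) All zeros of `Ξ_Δ` are real if and only if all zeros of all the averages `Ξ_(h,u)` are real.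
(2) `Ξ_(h,u)` has finitely many zeros with real part in `(0, T]`, and at least `c T log T` if `T ≥ T0` and
`1 / log T ≤ h ≤ 1`.  (3) For every `η > 0` there are `c, C > 0` such that for all `T ≥ 2`, `0 < h ≤ 1` and `|u| = 1`
all but at most the proportion `C T^(-c h)` of these zeros are real, simple, and followed by the next zero at distance
`(1 + θ) π / log x`, `|θ| ≤ η`. -/
theorem result :
    ((∀ z : ℂ, Xi z = 0 → z.im = 0) ↔
      ∀ (h : ℝ) (u z : ℂ), 0 < h → ‖u‖ = 1 → avg h u z = 0 → z.im = 0) ∧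
    (∀ (h : ℝ) (u : ℂ) (T : ℝ), 0 < h → ‖u‖ = 1 → (Zer (avg h u) T).Finite) ∧
    (∃ c T0 : ℝ, 0 < c ∧ 2 ≤ T0 ∧ ∀ (h T : ℝ) (u : ℂ), T0 ≤ T → 1 / Real.log T ≤ h → h ≤ 1 → ‖u‖ = 1 →
      c * T * Real.log T ≤ num (avg h u) (Zer (avg h u) T)) ∧
    ∀ η : ℝ, 0 < η → ∃ c C : ℝ, 0 < c ∧ 0 < C ∧ ∀ (h T : ℝ) (u : ℂ), 2 ≤ T → 0 < h → h ≤ 1 → ‖u‖ = 1 →
      (num (avg h u) (Exc η (avg h u) T) : ℝ) ≤ C * T ^ (-(c * h)) * num (avg h u) (Zer (avg h u) T) := by
  obtain ⟨u0, H, Z, hu, hGG, hst, hA, -, -⟩ := Pool.Agent.Y771.NF.all_of (N := 1) (k := 12) (by norm_num)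
    Pool.Agent.Y771.NF.newf_delta
  have hG : ∀ z, Xi z = u0⁻¹ * Pool.Agent.Y771.NF.Xf (N := 1) (k := 12) Pool.Agent.W97.TW.deltaForm u0
      (Complex.I * z) := by
    intro z
    rw [Pool.Agent.Y771.NF.Xf, inv_mul_cancel_left₀ hu, Pool.Agent.Y771.NF.Lam_delta]
    have h : (((12 : ℕ) : ℂ)) / 2 = 6 := by norm_num
    rw [h]
    rfl
  have hL := Pool.Agent.Q278.ES.lx_of (by norm_num) hGG hst hA
  obtain ⟨h1, h2, h3⟩ := Pool.Agent.Q278.ES.main (inv_ne_zero hu) hG hL
  refine ⟨Pool.Agent.Q278.ES.real_iff (inv_ne_zero hu) hG hL, h1, h2, fun η hη => ?_⟩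
  obtain ⟨c, C, hc, hC, h4⟩ := h3 η hη
  refine ⟨c, C, hc, hC, fun h T u hT hh hh1 hu1 => ?_⟩
  have h5 := h4 h T u hT hh hh1 hu1
  have e : Exc η (avg h u) T = {z | z ∈ Pool.Agent.Q278.ES.Zer (Pool.Agent.Q278.ES.Av Xi h u) T ∧
      ¬ Pool.Agent.Q278.ES.Reg 1 η (Pool.Agent.Q278.ES.Av Xi h u) z} := by
    ext z
    have e1 : Regular η (avg h u) z ↔ Pool.Agent.Q278.ES.Reg 1 η (Pool.Agent.Q278.ES.Av Xi h u) z := by
      unfold Regular Pool.Agent.Q278.ES.Reg
      have e2 : ∀ x : ℝ, (x - z.re) * (Real.log z.re / Real.pi) - 1 =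
          1 * Real.log z.re * (x - z.re) / Real.pi - 1 := fun x => by ring
      simp only [e2]
      rfl
    show z ∈ Zer (avg h u) T ∧ ¬ Regular η (avg h u) z ↔ _
    rw [e1]
    rfl
  rw [e]
  exact h5

end Pool.Agent.Results.MP_cd509c_nt.EqualSpacing
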