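import Pool.Agent.Q260.DL.One2

/-!
# One derivative of the Ramanujan Xi function decides Ramanujan's question up to `ε`

The Ramanujan Xi function is `Ξ_Δ(z) = Λ(6 + i z)`, `Λ(s) = (2π)^(-s) Γ(s) L(s, Δ)`; all its zeros satisfy `|Im z| ≤ 1/2`.
The zeros of the derivatives `Ξ_Δ^(k)` are closer to the real line than those of `Ξ_Δ`, real if those of `Ξ_Δ` are, and
for large `k` almost all of them are real. We show, with no hypothesis, that nevertheless every single derivative has its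
non-real zeros at the same places as `Ξ_Δ`: a zero of `Ξ_Δ` with `|Im z| ≥ σ + ε` forces a zero of `Ξ_Δ^(k)` with
`|Im w| > σ` at distance `O(log Re z)`, and conversely within `4 k`. So the upper limit of `|Im z|` is the same for
`Ξ_Δ` and each of its derivatives. If, for ONE `k`, the zeros of `Ξ_Δ^(k)` with large real part are real, then
`|Im z| ≤ C logloglog Re z / loglog Re z` for the zeros of `Ξ_Δ`, and the Lindelof bound holds for `L(s, Δ)`.
-/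

set_option autoImplicit false

open Complex

namespace Pool.Agent.Results.MP_cd509c_nt.OneDerivativeDecides

/-- `Δ(i y) = e^(-2πy) ∏_{n ≥ 1} (1 - e^(-2πny))^24`, the modular discriminant on the imaginary axis
(the function of the frozen statement S18517). -/
noncomputable def delta (y : ℝ) : ℝ :=
  Real.exp (-2 * Real.pi * y) * ∏' n : ℕ, (1 - Real.exp (-2 * Real.pi * ((n : ℝ) + 1) * y)) ^ 24

/-- The completed L-function `Λ(s) = ∫_0^∞ Δ(i y) y^(s-1) dy = (2π)^(-s) Γ(s) L(s, Δ)`, an entire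
function with `Λ(12 - s) = Λ(s)`. -/
noncomputable def Lam (s : ℂ) : ℂ := mellin (fun y : ℝ => ((delta y : ℝ) : ℂ)) s

/-- The Ramanujan L-function `L(s, Δ) = (2π)^s Λ(s) / Γ(s)`. -/
noncomputable def LDelta (s : ℂ) : ℂ := ((2 * Real.pi : ℝ) : ℂ) ^ s * Lam s / Complex.Gamma s

/-- The Ramanujan Xi function `Ξ_Δ(z) = Λ(6 + i z)`. -/
noncomputable def Xi (z : ℂ) : ℂ := Lam (6 + I * z)

/-- For every `ε > 0` the zeros of `F` with large real part satisfy `|Im z| ≤ δ + ε`. -/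
def Within (F : ℂ → ℂ) (δ : ℝ) : Prop :=
  ∀ ε : ℝ, 0 < ε → ∃ T : ℝ, ∀ z : ℂ, T ≤ z.re → F z = 0 → |z.im| ≤ δ + ε

/-- The zeros of `F` with large real part are real. -/
def EventuallyReal (F : ℂ → ℂ) : Prop := ∃ T : ℝ, ∀ z : ℂ, T ≤ z.re → F z = 0 → z.im = 0

/-- The Lindelof bound for `L(s, Δ)` on its critical line. -/
def Lindelof : Prop := ∀ ε : ℝ, 0 < ε → ∃ T : ℝ, ∀ t : ℝ, T ≤ t → ‖LDelta (6 + t * I)‖ ≤ t ^ ε

open Pool.Agent.Q260.DL Pool.Agent.Y771.NF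

lemma re_I (z : ℂ) : (I * z).re = -z.im := by simp

lemma im_I (z : ℂ) : (I * z).im = z.re := by simp

lemma ex_I (w : ℂ) : ∃ z : ℂ, w = I * z ∧ |w.re| = |z.im| ∧ w.im = z.re := by
  refine ⟨-I * w, ?_, ?_, ?_⟩
  · have := I_mul_I
    linear_combination w * this
  · have : (-I * w).im = -w.re := by simp
    rw [this, abs_neg]
  · simp

lemma Lam_eq (s : ℂ) : Pool.Agent.Y771.NF.Lam (N := 1) (k := 12) Pool.Agent.W97.TW.deltaForm s = Lam s := by
  rw [Pool.Agent.Y771.NF.Lam_delta]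
  rfl

/-- the transfer to the half plane -/
lemma key : ∃ (u : ℂ) (B : ℝ), u ≠ 0 ∧
    OD 2 B ((1 : ℕ) : ℝ) (muk 12) (Xf (N := 1) (k := 12) Pool.Agent.W97.TW.deltaForm u) :=
  od_newf (by norm_num) Pool.Agent.Y771.NF.newf_delta

lemma Xi_eq {u : ℂ} (hu : u ≠ 0) (z : ℂ) :
    Xi z = u⁻¹ * Xf (N := 1) (k := 12) Pool.Agent.W97.TW.deltaForm u (I * z) := by
  rw [Pool.Agent.Y771.NF.Xf, inv_mul_cancel_left₀ hu, Lam_eq]
  have h : (((12 : ℕ) : ℂ)) / 2 = 6 := by norm_num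
  rw [h]
  rfl

lemma iter_Xi {u : ℂ} (hu : u ≠ 0) {Φ : ℂ → ℂ} (hd : Differentiable ℂ Φ) (h : ∀ z : ℂ, Xi z = u⁻¹ * Φ (I * z)) (n : ℕ)
    (z : ℂ) : iteratedDeriv n Xi z = 0 ↔ iteratedDeriv n Φ (I * z) = 0 := by
  have hX : Xi = fun z => u⁻¹ * (fun w => Φ (I * w)) z := funext h
  have hcd : ContDiff ℂ n Φ := hd.contDiff
  have h1 : iteratedDeriv n (fun w => Φ (I * w)) z = I ^ n * iteratedDeriv n Φ (I * z) := by
    have := congrFun (iteratedDeriv_comp_const_mul hcd I) z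
    rw [this]
  rw [hX, iteratedDeriv_const_mul_field, h1]
  simp [hu, I_ne_zero]

lemma within_iff {F G : ℂ → ℂ} (h : ∀ z : ℂ, F z = 0 ↔ G (I * z) = 0) (δ : ℝ) : Within F δ ↔ WX G δ := by
  unfold Within WX
  refine forall_congr' fun ε => forall_congr' fun _ => exists_congr fun T => ?_
  constructor
  · intro h1 w hw h0
    obtain ⟨z, z1, z2, z3⟩ := ex_I w
    rw [z2]
    exact h1 z (by rw [← z3]; exact hw) ((h z).2 (by rw [← z1]; exact h0))
  · intro h1 z hz h0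
    have := h1 (I * z) (by rw [im_I]; exact hz) ((h z).1 h0)
    rwa [re_I, abs_neg] at this

lemma real_iff {F G : ℂ → ℂ} (h : ∀ z : ℂ, F z = 0 ↔ G (I * z) = 0) : EventuallyReal F ↔ LX G := by
  unfold EventuallyReal LX
  refine exists_congr fun T => ?_
  constructor
  · intro h1 w hw h0
    obtain ⟨z, z1, z2, z3⟩ := ex_I w
    have h2 := h1 z (by rw [← z3]; exact hw) ((h z).2 (by rw [← z1]; exact h0))
    rw [h2, abs_zero, abs_eq_zero] at z2
    exact z2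
  · intro h1 z hz h0
    have := h1 (I * z) (by rw [im_I]; exact hz) ((h z).1 h0)
    rw [re_I] at this
    linarith

lemma lx_wx {G : ℂ → ℂ} (h : LX G) : WX G 0 := by
  obtain ⟨T, hT⟩ := h
  refine fun ε hε => ⟨T, fun z hz h0 => ?_⟩
  rw [hT z hz h0, abs_zero]
  linarith

/-- the L-function on the critical line -/
lemma ld_eq {u : ℂ} (hu : u ≠ 0) : ∃ c : ℝ, 0 < c ∧ ∀ t : ℝ, ‖LDelta (6 + t * I)‖ =
    c * ‖Q240.OW.LQ 0 ((1 : ℕ) : ℝ) (muk 12) (fun s => Xf (N := 1) (k := 12) Pool.Agent.W97.TW.deltaForm u (s - 1 / 2))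
      (1 / 2 + t * I)‖ := by
  have hpi := Real.pi_pos
  obtain ⟨r, hr, hg⟩ := gaf_muk (N := 1) rfl 12
  have hr0 : 0 < ‖r‖ := norm_pos_iff.2 hr
  have hu0 : 0 < ‖u‖ := norm_pos_iff.2 hu
  refine ⟨(2 * Real.pi) ^ (6 : ℝ) / (‖u‖ * ‖r‖), by positivity, fun t => ?_⟩
  obtain ⟨c, hc⟩ : ∃ c : ℝ, c = Real.sqrt ((1 : ℕ) : ℝ) / (2 * Real.pi) := ⟨_, rfl⟩
  have hc0 : 0 < c := by rw [hc, Nat.cast_one, Real.sqrt_one]; positivity
  have h1 := hg (1 / 2 + t * I)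
  rw [← hc] at h1
  have e1 : (1 / 2 + (t : ℂ) * I - 1 / 2 : ℂ) = t * I := by ring
  rw [e1] at h1
  have h2 : ‖Pool.Agent.Y671.GL.Hg c (((12 : ℕ) : ℝ) / 2) (t * I)‖ = ‖Complex.Gamma (6 + t * I)‖ := by
    unfold Pool.Agent.Y671.GL.Hg
    rw [norm_mul]
    have e2 : ‖(c : ℂ) ^ ((t : ℂ) * I)‖ = 1 := by
      rw [Complex.norm_cpow_eq_rpow_re_of_pos hc0]
      simp
    rw [e2, one_mul]
    congr 2
    push_cast
    ring
  have h3 : ‖((2 * Real.pi : ℝ) : ℂ) ^ (6 + (t : ℂ) * I)‖ = (2 * Real.pi) ^ (6 : ℝ) := by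
    rw [Complex.norm_cpow_eq_rpow_re_of_pos (by positivity)]
    simp
  have hGne : Complex.Gamma (6 + t * I) ≠ 0 := by
    refine Complex.Gamma_ne_zero_of_re_pos ?_
    simp
  have hG0 : 0 < ‖Complex.Gamma (6 + t * I)‖ := norm_pos_iff.2 hGne
  have h4 : ‖Complex.Gamma (6 + t * I)‖ = ‖r‖ * ‖H353.E.gaf ((1 : ℕ) : ℝ) (muk 12) (1 / 2 + t * I)‖ := by
    rw [← h2, h1, norm_mul]
  have h5 : ‖H353.E.gaf ((1 : ℕ) : ℝ) (muk 12) (1 / 2 + t * I)‖ =
      ‖∏ j, Gammaℝ (1 / 2 + t * I - muk 12 j)‖ := by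
    unfold H353.E.gaf
    rw [Nat.cast_one, Complex.ofReal_one, Complex.one_cpow, one_mul]
  unfold LDelta Q240.OW.LQ Q240.GS.LL Q240.OW.la Q240.OW.pp
  simp only
  rw [e1, pow_zero, inv_one, mul_one, Nat.cast_one, Complex.ofReal_one, Complex.one_cpow, one_mul, norm_div, norm_mul, h3,
    Pool.Agent.Y771.NF.Xf, Lam_eq, norm_mul, norm_mul, Finset.prod_inv_distrib, norm_inv, ← h5]
  have h : (((12 : ℕ) : ℂ)) / 2 = 6 := by norm_num
  rw [h]
  have h6 : 0 < ‖H353.E.gaf ((1 : ℕ) : ℝ) (muk 12) (1 / 2 + t * I)‖ := by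
    by_contra hcon
    have : ‖H353.E.gaf ((1 : ℕ) : ℝ) (muk 12) (1 / 2 + t * I)‖ = 0 := le_antisymm (not_lt.1 hcon) (norm_nonneg _)
    rw [this, mul_zero] at h4
    exact hG0.ne' h4
  rw [h4]
  field_simp

/-- Let `k ≥ 0`. (1) The dictionary between the non-real zeros of `Ξ_Δ` and of its `k`-th derivative. (2) The strips.
(3) If the zeros of the `k`-th derivative with large real part are real. -/
theorem result (k : ℕ) :
    (∀ ε : ℝ, 0 < ε → ∃ C : ℝ,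
      (∀ (z : ℂ) (σ : ℝ), Xi z = 0 → C ≤ z.re → 0 ≤ σ → σ + ε ≤ |z.im| →
        ∃ w : ℂ, iteratedDeriv k Xi w = 0 ∧ σ < |w.im| ∧ |w.re - z.re| ≤ C * Real.log z.re) ∧
      (∀ (w : ℂ) (σ : ℝ), iteratedDeriv k Xi w = 0 → C ≤ w.re → 0 ≤ σ → σ + ε ≤ |w.im| →
        ∃ z : ℂ, Xi z = 0 ∧ σ < |z.im| ∧ |z.re - w.re| ≤ 4 * k)) ∧
    (∀ θ : ℝ, 0 ≤ θ → (Within (iteratedDeriv k Xi) θ ↔ Within Xi θ)) ∧
    (EventuallyReal (iteratedDeriv k Xi) → Lindelof ∧ ∃ C : ℝ, ∀ z : ℂ, Xi z = 0 → C ≤ z.re →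
      |z.im| ≤ C * (Real.log (Real.log (Real.log z.re)) / Real.log (Real.log z.re))) := by
  obtain ⟨u, B, hu, hO⟩ := key
  have hX := Xi_eq hu
  have z1 : ∀ z : ℂ, Xi z = 0 ↔ Xf (N := 1) (k := 12) Pool.Agent.W97.TW.deltaForm u (I * z) = 0 := fun z => by
    rw [hX]
    simp [hu]
  have zk := iter_Xi hu hO.diff hX k
  obtain ⟨h1, h2, h3⟩ := one hO k
  have hw1 : ∀ θ : ℝ, Within Xi θ ↔ WX (Xf (N := 1) (k := 12) Pool.Agent.W97.TW.deltaForm u) θ := within_iff z1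
  refine ⟨fun ε hε => ?_, fun θ hθ => ?_, fun hr => ?_⟩
  · obtain ⟨C, c1, c2⟩ := h1 ε hε
    refine ⟨C, fun z σ hz hzC hσ hσz => ?_, fun w σ hw hwC hσ hσw => ?_⟩
    · obtain ⟨b, b1, b2, b3⟩ := c1 (I * z) σ ((z1 z).1 hz) (by rw [im_I]; exact hzC) hσ (by rw [re_I, abs_neg]; exact hσz)
      obtain ⟨w, y1, y2, y3⟩ := ex_I b
      rw [y1] at b1
      rw [y2] at b2
      rw [y3, im_I] at b3
      exact ⟨w, (zk w).2 b1, b2, b3⟩
    · obtain ⟨b, b1, b2, b3⟩ := c2 (I * w) σ ((zk w).1 hw) (by rw [im_I]; exact hwC) hσ (by rw [re_I, abs_neg]; exact hσw)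
      obtain ⟨z, y1, y2, y3⟩ := ex_I b
      rw [y1] at b1
      rw [y2] at b2
      rw [y3, im_I] at b3
      exact ⟨z, (z1 z).2 b1, b2, b3⟩
  · rw [hw1, within_iff zk]
    exact h2 θ hθ
  · have hl := (real_iff zk).1 hr
    refine ⟨fun ε hε => ?_, ?_⟩
    · have hw := (h2 0 le_rfl).1 (lx_wx hl)
      obtain ⟨C, hC⟩ := lind hO hw (ε / 2) (by linarith)
      obtain ⟨c, hc, hL⟩ := ld_eq hu
      refine ⟨max (max C 1) (Real.exp (2 / ε * Real.log c)), fun t ht => ?_⟩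
      have t1 : C ≤ t := ((le_max_left _ _).trans (le_max_left _ _)).trans ht
      have t2 : 1 ≤ t := ((le_max_right _ _).trans (le_max_left _ _)).trans ht
      have t3 : Real.exp (2 / ε * Real.log c) ≤ t := (le_max_right _ _).trans ht
      have t0 : 0 < t := by linarith
      have h4 : 2 / ε * Real.log c ≤ Real.log t := (Real.le_log_iff_exp_le t0).2 t3
      have h5 : Real.log c ≤ ε / 2 * Real.log t := by
        have h6 : ε / 2 * (2 / ε * Real.log c) ≤ ε / 2 * Real.log t := mul_le_mul_of_nonneg_left h4 (by linarith)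
        have h7 : ε / 2 * (2 / ε * Real.log c) = Real.log c := by field_simp
        linarith
      rw [hL t, Real.rpow_def_of_pos t0]
      calc c * _ ≤ c * Real.exp (ε / 2 * Real.log t) := mul_le_mul_of_nonneg_left (hC t t1) hc.le
        _ = Real.exp (Real.log c + ε / 2 * Real.log t) := by rw [Real.exp_add, Real.exp_log hc]
        _ ≤ Real.exp (Real.log t * ε) := Real.exp_le_exp.2 (by linarith)
    · obtain ⟨C, hC⟩ := h3 hl
      refine ⟨C, fun z hz hzC => ?_⟩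
      have := hC (I * z) ((z1 z).1 hz) (by rw [im_I]; exact hzC)
      rwa [re_I, abs_neg, im_I] at this

end Pool.Agent.Results.MP_cd509c_nt.OneDerivativeDecides
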