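import Pool.Agent.Q260.DL.WPn

/-!
# Averages of the Ramanujan Xi function over two shifts: the exact threshold for real zeros

The Ramanujan Xi function is `Ξ_Δ(z) = Λ(6 + i z)`, `Λ(s) = (2π)^(-s) Γ(s) L(s, Δ)`; all its zeros satisfy
`|Im z| ≤ 1/2`. For `h > 0` and `|u| = 1` put `Ξ_(h,u)(z) = Ξ_Δ(z + i h) + u Ξ_Δ(z - i h)`. De Bruijn (1950): the zeros of
`Ξ_(h,u)` are real for `h ≥ 1/2`, and satisfy `|Im z| ≤ √(1/4 - h²)` for `h < 1/2`. We show, with no hypothesis,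
that the zeros with large real part are in the strip `|Im z| ≤ max (Θ - h, 0) + ε`, where `Θ` is the upper limit of
`|Im z|` for the zeros of `Ξ_Δ`, and that this is sharp. In particular all zeros of `Ξ_(h,u)` from some point on are real
for `h > Θ`, but not for `h < Θ`: de Bruijn's theorem can be extended below `1/2` if and only if
`L(s, Δ)` has a zero-free half-plane `Re s > 13/2 - δ` (at large heights). The zeros of `Ξ_(h,u)` and those of
`Ξ_Δ` above the line `Im z = h` correspond to each other locally.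
-/

set_option autoImplicit false

open Complex

namespace Pool.Agent.Results.MP_cd509c_nt.ShiftThreshold

/-- `Δ(i y) = e^(-2πy) ∏_{n ≥ 1} (1 - e^(-2πny))^24`, the modular discriminant on the imaginary axis
(the function of the frozen statement S18517). -/
noncomputable def delta (y : ℝ) : ℝ :=
  Real.exp (-2 * Real.pi * y) * ∏' n : ℕ, (1 - Real.exp (-2 * Real.pi * ((n : ℝ) + 1) * y)) ^ 24

/-- The completed L-function `Λ(s) = ∫_0^∞ Δ(i y) y^(s-1) dy = (2π)^(-s) Γ(s) L(s, Δ)`, an entire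
function with `Λ(12 - s) = Λ(s)`. -/
noncomputable def Lam (s : ℂ) : ℂ := mellin (fun y : ℝ => ((delta y : ℝ) : ℂ)) s

/-- The Ramanujan Xi function `Ξ_Δ(z) = Λ(6 + i z)`. -/
noncomputable def Xi (z : ℂ) : ℂ := Lam (6 + I * z)

/-- The average `Ξ_(h,u)(z) = Ξ_Δ(z + i h) + u Ξ_Δ(z - i h)`. -/
noncomputable def avg (h : ℝ) (u z : ℂ) : ℂ := Xi (z + h * I) + u * Xi (z - h * I)

/-- The resonance `- e^(-iπh)`. -/
noncomputable def res (h : ℝ) : ℂ := -cexp (-(I * ((Real.pi * h : ℝ) : ℂ)))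

/-- For every `ε > 0` the zeros of `F` with large real part satisfy `|Im z| ≤ δ + ε`. -/
def Within (F : ℂ → ℂ) (δ : ℝ) : Prop :=
  ∀ ε : ℝ, 0 < ε → ∃ T : ℝ, ∀ z : ℂ, T ≤ z.re → F z = 0 → |z.im| ≤ δ + ε

/-- The zeros of `F` with large real part are real. -/
def EventuallyReal (F : ℂ → ℂ) : Prop := ∃ T : ℝ, ∀ z : ℂ, T ≤ z.re → F z = 0 → z.im = 0

open Pool.Agent.Q260.DL Pool.Agent.Q260.DT

lemma re_I (z : ℂ) : (I * z).re = -z.im := by simp

lemma im_I (z : ℂ) : (I * z).im = z.re := by simp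

lemma ex_I (w : ℂ) : ∃ z : ℂ, w = I * z ∧ |w.re| = |z.im| ∧ w.im = z.re := by
  refine ⟨-I * w, ?_, ?_, ?_⟩
  · have := I_mul_I
    linear_combination w * this
  · have : (-I * w).im = -w.re := by simp
    rw [this, abs_neg]
  · simp

/-- the transfer to the half plane -/
lemma key : ∃ (c : ℂ) (X : ℂ → ℂ) (l g : ℝ → ℝ), c ≠ 0 ∧ TH (Real.pi / 2) X l g ∧ (∀ z : ℂ, Xi z = c * X (I * z)) := by
  obtain ⟨u0, l, g, hu, hT⟩ := th_newf (N := 1) (k := 12) (by norm_num) Pool.Agent.Y771.NF.newf_delta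
  refine ⟨u0⁻¹, _, l, g, inv_ne_zero hu, hT, fun z => ?_⟩
  rw [Pool.Agent.Y771.NF.Xf, inv_mul_cancel_left₀ hu, Pool.Agent.Y771.NF.Lam_delta]
  have h : (((12 : ℕ) : ℂ)) / 2 = 6 := by norm_num
  rw [h]
  rfl

lemma avg_eq {c : ℂ} {X : ℂ → ℂ} (hX : ∀ z : ℂ, Xi z = c * X (I * z)) (h : ℝ) {u : ℂ} (hu : ‖u‖ = 1) (z : ℂ) :
    avg h u z = c * u * Fa X h u⁻¹ (I * z) := by
  have hu0 : u ≠ 0 := by
    intro h0
    rw [h0, norm_zero] at hu
    norm_num at hu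
  unfold avg Fa
  rw [hX, hX]
  have e1 : I * (z + h * I) = I * z - h := by
    have := I_mul_I
    linear_combination (h : ℂ) * this
  have e2 : I * (z - h * I) = I * z + h := by
    have := I_mul_I
    linear_combination (-(h : ℂ)) * this
  rw [e1, e2]
  field_simp
  ring

lemma inv_norm {u : ℂ} (hu : ‖u‖ = 1) : ‖u⁻¹‖ = 1 := by rw [norm_inv, hu, inv_one]

lemma res_iff {u : ℂ} (h : ℝ) : u⁻¹ = rs (Real.pi / 2) h ↔ u = res h := by
  unfold rs res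
  have e : (2 * I * ((Real.pi / 2 * h : ℝ) : ℂ)) = I * ((Real.pi * h : ℝ) : ℂ) := by
    push_cast
    ring
  rw [e]
  constructor
  · intro h1
    rw [← inv_inv u, h1, inv_neg, Complex.exp_neg]
  · intro h1
    rw [h1, inv_neg, Complex.exp_neg, inv_inv]

lemma zero_iff {c : ℂ} {X : ℂ → ℂ} (hc : c ≠ 0) (hX : ∀ z : ℂ, Xi z = c * X (I * z)) (z : ℂ) :
    Xi z = 0 ↔ X (I * z) = 0 := by
  rw [hX]
  simp [hc]

lemma avg_iff {c : ℂ} {X : ℂ → ℂ} (hc : c ≠ 0) (hX : ∀ z : ℂ, Xi z = c * X (I * z)) (h : ℝ) {u : ℂ} (hu : ‖u‖ = 1)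
    (z : ℂ) : avg h u z = 0 ↔ Fa X h u⁻¹ (I * z) = 0 := by
  have hu0 : u ≠ 0 := by
    intro h0
    rw [h0, norm_zero] at hu
    norm_num at hu
  rw [avg_eq hX h hu]
  simp [hc, hu0]

lemma within_iff {F G : ℂ → ℂ} (h : ∀ z : ℂ, F z = 0 ↔ G (I * z) = 0) (δ : ℝ) : Within F δ ↔ WX G δ := by
  unfold Within WX
  refine forall_congr' fun ε => forall_congr' fun _ => exists_congr fun T => ?_
  constructor
  · intro h1 w hw h0
    obtain ⟨z, z1, z2, z3⟩ := ex_I w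
    rw [z2]
    exact h1 z (by rw [← z3]; exact hw) ((h z).2 (by rw [← z1]; exact h0))
  · intro h1 z hz h0
    have := h1 (I * z) (by rw [im_I]; exact hz) ((h z).1 h0)
    rwa [re_I, abs_neg] at this

lemma real_iff {F G : ℂ → ℂ} (h : ∀ z : ℂ, F z = 0 ↔ G (I * z) = 0) : EventuallyReal F ↔ LX G := by
  unfold EventuallyReal LX
  refine exists_congr fun T => ?_
  constructor
  · intro h1 w hw h0
    obtain ⟨z, z1, z2, z3⟩ := ex_I w
    have h2 := h1 z (by rw [← z3]; exact hw) ((h z).2 (by rw [← z1]; exact h0))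
    rw [h2, abs_zero, abs_eq_zero] at z2
    exact z2
  · intro h1 z hz h0
    have := h1 (I * z) (by rw [im_I]; exact hz) ((h z).1 h0)
    rw [re_I] at this
    linarith

/-- No hypothesis is assumed.
(1) The local dictionary. (2) The strips. (3) An unconditional strip. (4) The threshold for real zeros. -/
theorem result :
    (∀ (h ε : ℝ) (u : ℂ), 0 < h → 0 < ε → ‖u‖ = 1 → ∃ C : ℝ,
      (∀ (w : ℂ) (σ : ℝ), avg h u w = 0 → C ≤ w.re → 0 ≤ σ → σ + ε ≤ |w.im| →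
        ∃ z : ℂ, Xi z = 0 ∧ σ + h < |z.im| ∧ |z.re - w.re| ≤ C) ∧
      (u ≠ res h → ∀ (z : ℂ) (σ : ℝ), Xi z = 0 → C ≤ z.re → 0 ≤ σ → σ + h + ε ≤ |z.im| →
        ∃ w : ℂ, avg h u w = 0 ∧ σ < |w.im| ∧ |w.re - z.re| ≤ C * Real.log z.re)) ∧
    (∀ (h δ : ℝ) (u : ℂ), 0 < h → 0 ≤ δ → ‖u‖ = 1 →
      (Within Xi (h + δ) → Within (avg h u) δ) ∧ (u ≠ res h → Within (avg h u) δ → Within Xi (h + δ))) ∧
    (∀ (h : ℝ) (u : ℂ), 0 < h → h ≤ 1 / 2 → ‖u‖ = 1 → Within (avg h u) (1 / 2 - h)) ∧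
    (∀ (u : ℂ) (θ : ℝ), ‖u‖ = 1 → 0 ≤ θ →
      (Within Xi θ ↔ ∀ h : ℝ, θ < h → EventuallyReal (avg h u))) := by
  obtain ⟨c, X, l, g, hc, hT, hX⟩ := key
  have hp := Real.pi_pos
  have z1 := zero_iff hc hX
  have w1 : ∀ δ : ℝ, Within Xi δ ↔ WX X δ := within_iff z1
  have w2 : ∀ (h δ : ℝ) (u : ℂ), ‖u‖ = 1 → (Within (avg h u) δ ↔ WX (Fa X h u⁻¹) δ) := fun h δ u hu =>
    within_iff (avg_iff hc hX h hu) δ
  have w3 : ∀ (h : ℝ) (u : ℂ), ‖u‖ = 1 → (EventuallyReal (avg h u) ↔ LX (Fa X h u⁻¹)) := fun h u hu =>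
    real_iff (avg_iff hc hX h hu)
  refine ⟨fun h ε u hh hε hu => ?_, fun h δ u hh hδ hu => ⟨fun hw => ?_, fun hne hw => ?_⟩, fun h u hh hh2 hu => ?_,
    fun u θ hu hθ => ?_⟩
  · obtain ⟨C, hC, h1, h2⟩ := dict hT (u := u⁻¹) hh hε (inv_norm hu)
    refine ⟨C, fun w σ hw hwC hσ hwσ => ?_, fun hne z σ hz hzC hσ hzσ => ?_⟩
    · obtain ⟨b, b1, b2, b3⟩ := h1 (I * w) σ ((avg_iff hc hX h hu w).1 hw) (by rw [im_I]; exact hwC) hσ
        (by rw [re_I, abs_neg]; exact hwσ)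
      obtain ⟨z, y1, y2, y3⟩ := ex_I b
      rw [y1] at b1
      rw [y2] at b2
      rw [y3, im_I] at b3
      exact ⟨z, (z1 z).2 b1, b2, b3⟩
    · obtain ⟨b, b1, b2, b3⟩ := h2 (fun h0 => hne ((res_iff h).1 h0)) (I * z) σ ((z1 z).1 hz) (by rw [im_I]; exact hzC) hσ
        (by rw [re_I, abs_neg]; exact hzσ)
      obtain ⟨w, y1, y2, y3⟩ := ex_I b
      rw [y1] at b1
      rw [y2] at b2
      rw [y3, im_I] at b3
      exact ⟨w, (avg_iff hc hX h hu w).2 b1, b2, b3⟩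
  · exact (w2 h δ u hu).2 (within hT hh hδ (inv_norm hu) ((w1 _).1 hw))
  · exact (w1 _).2 (within_conv hT hh hδ (inv_norm hu) (fun h0 => hne ((res_iff h).1 h0)) ((w2 h δ u hu).1 hw))
  · refine (w2 h _ u hu).2 (within hT hh (by linarith) (inv_norm hu) ?_)
    have := wx_half hT
    rwa [add_sub_cancel]
  · rw [w1, threshold hT (by positivity) hθ (inv_norm hu)]
    exact forall_congr' fun h => forall_congr' fun _ => (w3 h u hu).symm

end Pool.Agent.Results.MP_cd509c_nt.ShiftThreshold
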